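import Pool.Agent.H751R2.GN.Final3

/-!
# MP_49c4d9_an: typical operators of the hyperfinite II_1 factor with one-point Brown measure

Let `M` be the hyperfinite II_1 factor in its standard representation on `H`, with trace vector `Ω`
(`HypData H`). Its unit ball `Ball D` is a complete metric space for the 2-norm `‖(S - T) Ω‖`. By the
theorems of Brown and of Haagerup and Schultz, an operator of `M` whose Brown measure is not
concentrated in one point has hyperinvariant subspaces. The remaining operators are, up to a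
translation, those whose Brown measure is the point mass at zero; the contractions among them are the
set `QN D`, a G_delta set in `Ball D`, hence a Baire space.

The theorem: all `T` in `QN D` outside a meagre set
* generate `M` as a von Neumann algebra;
* have a full nest of invariant projections of `M` (one for every trace `t` in `[0, 1]`) which are
  invariant even under all operators of `M` commuting with `T`, and the nest generates a maximal
  abelian subalgebra of `M`;
* are not normal, and are not reductive: none of the projections of the nest other than `0`, `1`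
  reduces `T`.
So for these operators the conclusion of the reductive operator problem holds.

The theorem on the nest (`Pool.Agent.H751R2.GN`) was proved in the starting repository and never
handed in.
-/

set_option autoImplicit false

open scoped Kronecker ComplexOrder
open Filter Topology

namespace Pool.Agent.Results.MP_49c4d9_an.TypicalHyperfinite

open Pool.Agent.H751R2.GN

variable {H : Type} [NormedAddCommGroup H] [InnerProductSpace ℂ H] [CompleteSpace H]

/-- every closed invariant subspace of `T` is reducing -/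
def Reductive (T : H →L[ℂ] H) : Prop :=
  ∀ V : Submodule ℂ H, IsClosed (V : Set H) → (∀ x ∈ V, T x ∈ V) → ∀ x ∈ V, (star T) x ∈ V

/-- `T` generates `M` as a von Neumann algebra: what commutes with `T` and `T*` commutes with `M` -/
def Generates (D : HypData H) (T : H →L[ℂ] H) : Prop :=
  ∀ S : H →L[ℂ] H, S * T = T * S → S * star T = star T * S → ∀ x ∈ D.M, S * x = x * S

section factor

variable {D : HypData H} {P : H →L[ℂ] H}

lemma inner_single (hc : ∀ x ∈ D.M, P * x = x * P) (hP : P ∈ D.M) (n : ℕ) (i j k : Idx n) :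
    inner ℂ D.Ω (P (D.π n (Matrix.single i j (1 : ℂ)) D.Ω)) =
      if i = j then inner ℂ D.Ω (P (D.π n (Matrix.single k k (1 : ℂ)) D.Ω)) else 0 := by
  have hm : ∀ a, D.π n a ∈ D.M := D.π_mem n
  have key : ∀ i j k l : Idx n,
      inner ℂ D.Ω (P (D.π n (Matrix.single i j (1 : ℂ) * Matrix.single k l 1) D.Ω)) =
      inner ℂ D.Ω (P (D.π n (Matrix.single k l (1 : ℂ) * Matrix.single i j 1) D.Ω)) := by
    intro i j k l
    have h1 := D.tracial (P * D.π n (Matrix.single i j (1 : ℂ))) (mul_mem hP (hm _))
      (D.π n (Matrix.single k l (1 : ℂ))) (hm _)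
    have h2 : D.π n (Matrix.single k l (1 : ℂ)) * P = P * D.π n (Matrix.single k l (1 : ℂ)) :=
      (hc _ (hm _)).symm
    have e1 : P (D.π n (Matrix.single i j (1 : ℂ) * Matrix.single k l 1) D.Ω) =
        (P * D.π n (Matrix.single i j (1 : ℂ))) (D.π n (Matrix.single k l (1 : ℂ)) D.Ω) := by
      rw [map_mul]; rfl
    have e2 : P (D.π n (Matrix.single k l (1 : ℂ) * Matrix.single i j 1) D.Ω) =
        (D.π n (Matrix.single k l (1 : ℂ))) ((P * D.π n (Matrix.single i j (1 : ℂ))) D.Ω) := by
      have : P * (D.π n (Matrix.single k l (1 : ℂ)) * D.π n (Matrix.single i j (1 : ℂ))) =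
          D.π n (Matrix.single k l (1 : ℂ)) * (P * D.π n (Matrix.single i j (1 : ℂ))) := by
        rw [← mul_assoc, ← h2, mul_assoc]
      rw [map_mul]
      exact congrArg (fun A : H →L[ℂ] H => A D.Ω) this
    rw [e1, e2, h1]
  split_ifs with h
  · subst h
    have := key i k k i
    rw [Matrix.single_mul_single_same, Matrix.single_mul_single_same, one_mul] at this
    exact this
  · have := key i i i j
    rw [Matrix.single_mul_single_same, Matrix.single_mul_single_of_ne _ _ _ _ (Ne.symm h), one_mul,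
      map_zero] at this
    simpa using this

lemma inner_central (hc : ∀ x ∈ D.M, P * x = x * P) (hP : P ∈ D.M) (n : ℕ)
    (a : Matrix (Idx n) (Idx n) ℂ) :
    inner ℂ D.Ω (P (D.π n a D.Ω)) =
      inner ℂ D.Ω (P D.Ω) * inner ℂ D.Ω (D.π n a D.Ω) := by
  classical
  obtain ⟨k⟩ := instNonemptyIdx n
  set c : ℂ := inner ℂ D.Ω (P (D.π n (Matrix.single k k (1 : ℂ)) D.Ω)) with hcdef
  have hall : ∀ b : Matrix (Idx n) (Idx n) ℂ, inner ℂ D.Ω (P (D.π n b D.Ω)) = c * b.trace := by
    intro b
    let L : Matrix (Idx n) (Idx n) ℂ →ₗ[ℂ] ℂ :=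
      { toFun := fun b => inner ℂ D.Ω (P (D.π n b D.Ω))
        map_add' := by intro x y; simp
        map_smul' := by intro r x; simp }
    let R : Matrix (Idx n) (Idx n) ℂ →ₗ[ℂ] ℂ :=
      { toFun := fun b => c * b.trace
        map_add' := by intro x y; simp [mul_add]
        map_smul' := by intro r x; simp; ring }
    have hLR : L = R := by
      apply Matrix.ext_linearMap
      intro i j
      ext
      simp only [LinearMap.comp_apply, L, R, LinearMap.coe_mk, AddHom.coe_mk,
        Matrix.singleLinearMap_apply]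
      rw [inner_single hc hP n i j k]
      by_cases h : i = j
      · subst h; simp [hcdef]
      · simp [h]
    exact LinearMap.congr_fun hLR b
  have h1 := hall 1
  rw [map_one, Matrix.trace_one] at h1
  have hcard : (Fintype.card (Idx n) : ℂ) ≠ 0 := by
    exact_mod_cast Fintype.card_ne_zero
  have h3 := (t_BR3 H D n a).1
  rw [hall a, h3]
  have h1' : inner ℂ D.Ω (P D.Ω) = c * (Fintype.card (Idx n) : ℂ) := h1
  rw [h1']
  field_simp

/-- a projection of `M` of trace strictly between `0` and `1` is not central -/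
lemma not_central {t : ℝ} (ht0 : 0 < t) (ht1 : t < 1) (hP : P ∈ D.M) (hs : star P = P)
    (hi : P * P = P) (htr : inner ℂ D.Ω (P D.Ω) = (t : ℂ)) :
    ¬ ∀ x ∈ D.M, P * x = x * P := by
  intro hc
  have hPP : inner ℂ (P D.Ω) (P D.Ω) = (t : ℂ) := by
    have : inner ℂ (P D.Ω) (P D.Ω) = inner ℂ D.Ω (P (P D.Ω)) := by
      rw [← ContinuousLinearMap.adjoint_inner_right, ← ContinuousLinearMap.star_eq_adjoint, hs]
    rw [this, ← htr]
    exact congrArg (fun A : H →L[ℂ] H => inner ℂ D.Ω (A D.Ω)) hi
  have hn : ‖P D.Ω‖ ≤ 1 := by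
    have h1 : ‖P D.Ω‖ ^ 2 = t := by
      have := inner_self_eq_norm_sq (𝕜 := ℂ) (P D.Ω)
      rw [hPP] at this
      simpa using this.symm
    nlinarith [norm_nonneg (P D.Ω)]
  have hlt : 0 < t - t ^ 2 := by nlinarith
  obtain ⟨n, a, ha⟩ := D.dense P hP ((t - t ^ 2) / 4) (by linarith)
  have h2 := inner_central hc hP n a
  have e1 : inner ℂ D.Ω (P (D.π n a D.Ω)) = inner ℂ (P D.Ω) (D.π n a D.Ω) := by
    rw [← ContinuousLinearMap.adjoint_inner_left, ← ContinuousLinearMap.star_eq_adjoint, hs]
  rw [e1, htr] at h2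
  set ξ := D.π n a D.Ω with hξ
  have b1 : ‖inner ℂ (P D.Ω) ξ - (t : ℂ)‖ ≤ (t - t ^ 2) / 4 := by
    rw [← hPP, ← inner_sub_right]
    refine (norm_inner_le_norm _ _).trans ?_
    rw [norm_sub_rev]
    calc ‖P D.Ω‖ * ‖P D.Ω - ξ‖ ≤ 1 * ((t - t ^ 2) / 4) :=
          mul_le_mul hn ha.le (norm_nonneg _) zero_le_one
      _ = _ := one_mul _
  have b2 : ‖inner ℂ D.Ω ξ - (t : ℂ)‖ ≤ (t - t ^ 2) / 4 := by
    rw [← htr, ← inner_sub_right]
    refine (norm_inner_le_norm _ _).trans ?_
    rw [norm_sub_rev, D.norm_Ω, one_mul]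
    exact ha.le
  have b3 : ‖(t : ℂ) - (t : ℂ) * (t : ℂ)‖ ≤ (t - t ^ 2) / 2 := by
    have : (t : ℂ) - (t : ℂ) * (t : ℂ) =
        -(inner ℂ (P D.Ω) ξ - (t : ℂ)) + (t : ℂ) * (inner ℂ D.Ω ξ - (t : ℂ)) := by
      rw [h2]; ring
    rw [this]
    refine (norm_add_le _ _).trans ?_
    rw [norm_neg, norm_mul, Complex.norm_real, Real.norm_eq_abs, abs_of_pos ht0]
    have : t * ‖inner ℂ D.Ω ξ - (t : ℂ)‖ ≤ 1 * ((t - t ^ 2) / 4) :=
      mul_le_mul ht1.le b2 (norm_nonneg _) zero_le_one
    linarith
  have b4 : ‖(t : ℂ) - (t : ℂ) * (t : ℂ)‖ = t - t ^ 2 := by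
    have : (t : ℂ) - (t : ℂ) * (t : ℂ) = ((t - t ^ 2 : ℝ) : ℂ) := by push_cast; ring
    rw [this, Complex.norm_real, Real.norm_eq_abs, abs_of_pos hlt]
  rw [b4] at b3
  linarith

end factor

/-- `T` has a full nest of hyperinvariant projections in `M` which generates a maximal abelian
subalgebra of `M`, and none of them except those of trace `0` and `1` reduces `T`: `P t`,
`0 ≤ t ≤ 1`, are increasing projections of trace `t`, invariant under `T` and under all `S` in `M`
commuting with `T`; every `x` in `M` which commutes with all `P t` is a 2-norm limit of linear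
combinations of the `P ((j + 1) / K) - P (j / K)`, `j < K`; and `P t` does not commute with `T` if
`0 < t < 1`. -/
def FullNest (D : HypData H) (T : H →L[ℂ] H) : Prop :=
  ∃ P : ℝ → (H →L[ℂ] H),
    (∀ t : ℝ, 0 ≤ t → t ≤ 1 → P t ∈ D.M ∧ star (P t) = P t ∧ P t * P t = P t ∧
      inner ℂ D.Ω (P t D.Ω) = (t : ℂ) ∧ T * P t = P t * T * P t ∧
      ∀ S ∈ D.M, S * T = T * S → S * P t = P t * S * P t) ∧
    (∀ s t : ℝ, 0 ≤ s → s ≤ t → t ≤ 1 → P t * P s = P s) ∧
    (∀ x ∈ D.M, (∀ t : ℝ, 0 ≤ t → t ≤ 1 → x * P t = P t * x) → ∀ ε : ℝ, 0 < ε →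
      ∃ (K : ℕ) (c : ℕ → ℂ), 0 < K ∧
        ‖x D.Ω - (∑ j ∈ Finset.range K,
          c j • (P (((j : ℝ) + 1) / K) - P ((j : ℝ) / K))) D.Ω‖ < ε) ∧
    ∀ t : ℝ, 0 < t → t < 1 → T * P t ≠ P t * T

lemma comm_of_both {T P : H →L[ℂ] H} (hs : star P = P) (h1 : T * P = P * T * P)
    (h2 : star T * P = P * star T * P) : P * T = T * P ∧ P * star T = star T * P := by
  have h3 : P * T = P * T * P := by
    have := congrArg star h2
    simpa [star_mul, star_star, hs, mul_assoc] using this
  have h4 : P * star T = P * star T * P := by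
    have := congrArg star h1
    simpa [star_mul, star_star, hs, mul_assoc] using this
  exact ⟨h3.trans h1.symm, h4.trans h2.symm⟩

/-- **Typical operators of the hyperfinite II_1 factor with Brown measure `δ_0` are not reductive.**
The contractions of `M` form a complete metric space in the 2-norm; those with Brown measure `δ_0`
form a G_delta subset `QN D`, a Baire space; and all `T` in `QN D` outside a meagre set generate `M`,
have a full nest of invariant (even hyperinvariant in `M`) projections generating a maximal abelian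
subalgebra of `M`, are not normal and not reductive. -/
theorem result (D : HypData H) :
    CompleteSpace (Ball D) ∧ (∀ S T : Ball D, dist S T = 0 → S = T) ∧
    IsGδ (QN D) ∧ BaireSpace (QN D) ∧
    {T : QN D | Generates D T.1.1 ∧ FullNest D T.1.1 ∧ ¬ IsStarNormal T.1.1 ∧
      ¬ Reductive T.1.1} ∈ residual (QN D) := by
  obtain ⟨h1, h2, h3, h4, h5⟩ := p_MAINM H D
  refine ⟨h1, h2, h3, h4, mem_of_superset h5 ?_⟩
  rintro T ⟨⟨P, hP, hm, hx⟩, hg⟩
  have hT : T.1.1 ∈ D.M := T.1.2.1
  have hT' : star T.1.1 ∈ D.M := star_mem hT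
  have nored : ∀ t : ℝ, 0 < t → t < 1 → star T.1.1 * P t ≠ P t * star T.1.1 * P t := by
    intro t ht0 ht1 h
    obtain ⟨q1, q2, q3, q4, q5, -⟩ := hP t ht0.le ht1.le
    obtain ⟨c1, c2⟩ := comm_of_both q2 q5 h
    exact not_central ht0 ht1 q1 q2 q3 q4 (hg (P t) c1 c2)
  refine ⟨hg, ⟨P, hP, hm, hx, ?_⟩, ?_, ?_⟩
  · intro t ht0 ht1 h
    obtain ⟨q1, q2, q3, q4, q5, -⟩ := hP t ht0.le ht1.le
    apply nored t ht0 ht1
    have h' : P t * star T.1.1 = star T.1.1 * P t := by
      have := congrArg star h
      simpa [star_mul, q2] using this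
    rw [h', mul_assoc, q3]
  · intro hn
    obtain ⟨-, -, -, -, -, q6⟩ := hP (1 / 2) (by norm_num) (by norm_num)
    exact nored (1 / 2) (by norm_num) (by norm_num) (q6 (star T.1.1) hT' hn.star_comm_self)
  · intro hr
    obtain ⟨q1, q2, q3, q4, q5, -⟩ := hP (1 / 2) (by norm_num) (by norm_num)
    apply nored (1 / 2) (by norm_num) (by norm_num)
    set Q := P (1 / 2) with hQ
    let V : Submodule ℂ H := LinearMap.ker ((1 - Q : H →L[ℂ] H) : H →ₗ[ℂ] H)
    have hV : ∀ x, x ∈ V ↔ Q x = x := by
      intro x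
      simp only [V, LinearMap.mem_ker, ContinuousLinearMap.coe_coe]
      rw [sub_apply, one_apply_eq_self, sub_eq_zero, eq_comm]
    have hcl : IsClosed (V : Set H) := ContinuousLinearMap.isClosed_ker (1 - Q : H →L[ℂ] H)
    have hinv : ∀ x ∈ V, T.1.1 x ∈ V := by
      intro x hxV
      rw [hV] at hxV ⊢
      have e := congrArg (fun A : H →L[ℂ] H => A x) q5
      simp only [mul_apply_eq_comp] at e
      rw [hxV] at e
      exact e.symm
    have := hr V hcl hinv
    ext x
    have hx' : Q x ∈ V := by
      rw [hV]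
      exact congrArg (fun A : H →L[ℂ] H => A x) q3
    have h7 := (hV _).1 (this _ hx')
    simp only [mul_apply_eq_comp]
    exact h7.symm

end Pool.Agent.Results.MP_49c4d9_an.TypicalHyperfinite
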